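import Mathlib
import Pool.Agent.H75.CapHard

/-!
# Approximating the capacity of forbidden difference patterns is NP-hard
-/

set_option autoImplicit false

namespace Pool.Agent.Results.MP_edb722_lc.CapApproxNPHard

open Turing Pool.Agent.H75

/-- `q` is a correct answer to the approximate version on the instance `(D, ε)`. -/
def IsApprox (z : Inst) (q : ℚ) : Prop := |(q : ℝ) - capacity z.D| ≤ (z.r : ℝ)

/-- The approximate version is NP-hard: membership in any language of NP is decided by one query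
to it and one comparison of rationals. -/
theorem result (L : Set (List Bool)) (hL : InNP L) :
    ∃ (f : List Bool → Inst) (θ : List Bool → ℚ),
      Nonempty (TM2ComputableInPolyTime (fun x : List Bool => x) encInst f) ∧
      Nonempty (TM2ComputableInPolyTime (fun x : List Bool => x) encRat θ) ∧
      ∀ x, 0 < (f x).r ∧ ∀ q : ℚ, IsApprox (f x) q → (x ∈ L ↔ θ x ≤ q) := by
  obtain ⟨D, Q, hD, hQ, pD, eQ, hyes, hno⟩ := reduction hL
  have eK : IsEx fun x _ => 4 * Q x ^ 2 := (isEx_const 4).mul (eQ.pow 2)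
  have eQ1 : IsEx fun x _ => Q x + 1 := eQ.add (isEx_const 1)
  have hKpos : ∀ x, 0 < 4 * Q x ^ 2 := fun x => by
    have := hQ x; positivity
  obtain ⟨p, hp⟩ := (isPr_encRat_inv eK hKpos).append pD
  obtain ⟨p', hp'⟩ := isPr_encRat_inv eQ1 fun x => by omega
  refine ⟨fun x => ⟨D x, ((4 * Q x ^ 2 : ℕ) : ℚ)⁻¹, (hD x).1, (hD x).2⟩, fun x => ((Q x + 1 : ℕ) : ℚ)⁻¹,
    p.polyTime encInst _ fun x => (hp x _).symm, p'.polyTime encRat _ fun x => (hp' x _).symm, ?_⟩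
  intro x
  have hQr : (2 : ℝ) ≤ Q x := by exact_mod_cast hQ x
  refine ⟨inv_pos.2 (by exact_mod_cast hKpos x), fun q hq => ?_⟩
  unfold IsApprox at hq
  simp only at hq ⊢
  rw [abs_le] at hq
  obtain ⟨hq1, hq2⟩ := hq
  push_cast at hq1 hq2
  have e0 : ((4 : ℝ) * (Q x : ℝ) ^ 2)⁻¹ = 1 / (4 * (Q x : ℝ) ^ 2) := by rw [one_div]
  rw [e0] at hq1 hq2
  have hθ : ((((Q x + 1 : ℕ) : ℚ)⁻¹ : ℚ) : ℝ) = 1 / ((Q x : ℝ) + 1) := by push_cast; rw [one_div]
  have hcast : ((Q x + 1 : ℕ) : ℚ)⁻¹ ≤ q ↔ 1 / ((Q x : ℝ) + 1) ≤ (q : ℝ) := by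
    rw [← hθ]; exact Rat.cast_le.symm
  rw [hcast]
  have k1 : 1 / ((Q x : ℝ) + 1) ≤ 1 / (Q x : ℝ) - 1 / (4 * (Q x : ℝ) ^ 2) := by
    have : 1 / (Q x : ℝ) - 1 / (4 * (Q x : ℝ) ^ 2) = (4 * (Q x : ℝ) - 1) / (4 * (Q x : ℝ) ^ 2) := by
      field_simp
    rw [this, div_le_div_iff₀ (by linarith) (by positivity)]
    nlinarith
  have k2 : 1 / (Q x : ℝ) - 2 / (Q x : ℝ) ^ 2 + 1 / (4 * (Q x : ℝ) ^ 2) < 1 / ((Q x : ℝ) + 1) := by
    have : 1 / (Q x : ℝ) - 2 / (Q x : ℝ) ^ 2 + 1 / (4 * (Q x : ℝ) ^ 2) =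
        (4 * (Q x : ℝ) - 7) / (4 * (Q x : ℝ) ^ 2) := by
      field_simp
      ring
    rw [this, div_lt_div_iff₀ (by positivity) (by linarith)]
    nlinarith
  constructor
  · intro hx
    have := hyes x hx
    linarith
  · intro h
    by_contra hx
    have := hno x hx
    linarith

end Pool.Agent.Results.MP_edb722_lc.CapApproxNPHard
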