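import Mathlib
import Pool.Agent.H75.CapHard

/-!
# Deciding whether the capacity of forbidden difference patterns is at least a given rational
is NP-hard
-/

set_option autoImplicit false

namespace Pool.Agent.Results.MP_edb722_lc.CapExactNPHard

open Turing Pool.Agent.H75

/-- The exact version: given a finite non-empty list of distinct patterns and a rational `r`,
decide whether the capacity is at least `r`. -/
def CapAtLeast (z : Inst) : Prop := (z.r : ℝ) ≤ capacity z.D

/-- The exact version is NP-hard under polynomial-time many-one reductions. -/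
theorem result : NPHard encInst CapAtLeast := by
  intro L hL
  obtain ⟨D, Q, hD, hQ, pD, eQ, hyes, hno⟩ := reduction hL
  obtain ⟨p, hp⟩ := (isPr_encRat_inv eQ fun x => by have := hQ x; omega).append pD
  refine ⟨fun x => ⟨D x, (Q x : ℚ)⁻¹, (hD x).1, (hD x).2⟩, p.polyTime encInst _ fun x => (hp x _).symm, ?_⟩
  intro x
  have hQr : (2 : ℝ) ≤ Q x := by exact_mod_cast hQ x
  unfold CapAtLeast
  have e : (((Q x : ℚ)⁻¹ : ℚ) : ℝ) = 1 / (Q x : ℝ) := by push_cast; rw [one_div]
  simp only [e]
  constructor
  · exact hyes x
  · intro h
    by_contra hx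
    have h1 := hno x hx
    have h2 : (0 : ℝ) < 2 / (Q x : ℝ) ^ 2 := by positivity
    linarith

end Pool.Agent.Results.MP_edb722_lc.CapExactNPHard
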